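import Mathlib
import Pool.Agent.Lib_helper53.COV.Main

/-!
MP_7fa604_co: upper bound for the covering densities `f(r)` (linear codes) and `f~(r)` (all codes).
-/

namespace Pool.Agent.Results.MP_7fa604_co.LinearCoverings

open Filter
open scoped ENNReal

/-- `V` is an `r`-covering of `F_2^n`: every vector is within Hamming distance `r` of `V`. -/
def IsCovering (n r : ℕ) (V : Set (Fin n → ZMod 2)) : Prop :=
  ∀ x : Fin n → ZMod 2, ∃ v ∈ V, hammingDist x v ≤ r

/-- `|B(n,r)|`, the number of vectors of weight at most `r`. -/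
noncomputable def ballSize (n r : ℕ) : ℕ :=
  (Finset.univ.filter (fun x : Fin n → ZMod 2 => hammingNorm x ≤ r)).card

/-- `|V| |B(n,r)| / 2^n`. -/
noncomputable def density (n r : ℕ) (V : Set (Fin n → ZMod 2)) : ℝ≥0∞ :=
  (Nat.card V : ℝ≥0∞) * (ballSize n r : ℝ≥0∞) / 2 ^ n

/-- `m(n,r)`: infimum of the density over all `r`-coverings. -/
noncomputable def mAll (n r : ℕ) : ℝ≥0∞ :=
  ⨅ (V : Set (Fin n → ZMod 2)) (_ : IsCovering n r V), density n r V

/-- the same infimum over the linear `r`-coverings. -/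
noncomputable def mLin (n r : ℕ) : ℝ≥0∞ :=
  ⨅ (V : Submodule (ZMod 2) (Fin n → ZMod 2)) (_ : IsCovering n r (V : Set (Fin n → ZMod 2))),
    density n r (V : Set (Fin n → ZMod 2))

/-- `f~(r) = liminf_n m(n,r)`. -/
noncomputable def fAll (r : ℕ) : ℝ≥0∞ := liminf (fun n => mAll n r) atTop

/-- `f(r)`: the same for linear codes. -/
noncomputable def fLin (r : ℕ) : ℝ≥0∞ := liminf (fun n => mLin n r) atTop

/-- `f~(r) ≤ f(r) ≤ r log r + r log log r + 84 r` for every `r ≥ 3`. -/
theorem result : ∀ r : ℕ, 3 ≤ r →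
    fAll r ≤ fLin r ∧
    fLin r ≤ ENNReal.ofReal (r * Real.log r + r * Real.log (Real.log r) + 84 * r) := by
  intro r hr
  refine ⟨?_, ?_⟩
  · exact liminf_le_liminf (Eventually.of_forall (fun n =>
      le_iInf₂ (fun V hV => iInf₂_le (V : Set (Fin n → ZMod 2)) hV)))
  · apply liminf_le_of_frequently_le'
    rw [frequently_atTop]
    intro N
    obtain ⟨n, hn, V, hV1, hV2⟩ := COV.frequently r hr N
    refine ⟨n, hn, le_trans (iInf₂_le V hV1) ?_⟩
    rw [density]
    have h1 : ((Nat.card V : ℝ≥0∞) * (ballSize n r : ℝ≥0∞) / 2 ^ n)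
        = ENNReal.ofReal ((Nat.card V : ℝ) * (COV.ballCard n r : ℝ) / 2 ^ n) := by
      rw [ENNReal.ofReal_div_of_pos (by positivity), ENNReal.ofReal_mul (by positivity),
        ENNReal.ofReal_natCast, ENNReal.ofReal_natCast, ENNReal.ofReal_pow (by norm_num)]
      simp [ballSize, COV.ballCard]
    have h2 : (Nat.card ((V : Set (Fin n → ZMod 2)) : Type) : ℝ≥0∞) = (Nat.card V : ℝ≥0∞) := rfl
    rw [h2, h1]
    exact ENNReal.ofReal_le_ofReal hV2

end Pool.Agent.Results.MP_7fa604_co.LinearCoverings
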